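import Mathlib

set_option autoImplicit false

namespace Pool.Agent.Lib.MP_2ae949_nt

open Filter Topology Finset

/-- The twisted function `g n * n ^ (-s)`. -/
noncomputable def tw (g : ℕ → ℂ) (s : ℝ) (n : ℕ) : ℂ := g n * (((n : ℝ) ^ (-s) : ℝ) : ℂ)

lemma norm_tw (g : ℕ → ℂ) (s : ℝ) (n : ℕ) : ‖tw g s n‖ = ‖g n‖ * (n : ℝ) ^ (-s) := by
  unfold tw
  rw [norm_mul, Complex.norm_real, Real.norm_eq_abs, abs_of_nonneg (by positivity)]

lemma rpow_diff_le (s : ℝ) (hs : 0 ≤ s) (n : ℕ) (hn : 1 ≤ n) :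
    0 ≤ (n : ℝ) ^ (-s) - ((n + 1 : ℕ) : ℝ) ^ (-s) ∧
    (n : ℝ) ^ (-s) - ((n + 1 : ℕ) : ℝ) ^ (-s) ≤ s / n := by
  have hn0 : (0 : ℝ) < n := by exact_mod_cast hn
  have hn1 : (1 : ℝ) ≤ n := by exact_mod_cast hn
  constructor
  · have : ((n + 1 : ℕ) : ℝ) ^ (-s) ≤ (n : ℝ) ^ (-s) :=
      Real.rpow_le_rpow_of_nonpos hn0 (by push_cast; linarith) (by linarith)
    linarith
  · have h1 : ((n + 1 : ℕ) : ℝ) = n * (1 + 1 / n) := by push_cast; field_simp
    have h2 : ((n + 1 : ℕ) : ℝ) ^ (-s) = (n : ℝ) ^ (-s) * (1 + 1 / n) ^ (-s) := by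
      rw [h1, Real.mul_rpow hn0.le (by positivity)]
    have h3 : (n : ℝ) ^ (-s) ≤ 1 := Real.rpow_le_one_of_one_le_of_nonpos hn1 (by linarith)
    have h4 : 1 - s / n ≤ (1 + 1 / (n : ℝ)) ^ (-s) := by
      rw [Real.rpow_def_of_pos (by positivity)]
      have h5 := Real.add_one_le_exp (Real.log (1 + 1 / (n : ℝ)) * (-s))
      have h6 : Real.log (1 + 1 / (n : ℝ)) ≤ 1 / n := by
        have := Real.log_le_sub_one_of_pos (show (0 : ℝ) < 1 + 1 / n by positivity)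
        linarith
      have h7 : Real.log (1 + 1 / (n : ℝ)) * s ≤ 1 / n * s := mul_le_mul_of_nonneg_right h6 hs
      have h8 : 1 / (n : ℝ) * s = s / n := by ring
      linarith
    have h5 : (0 : ℝ) ≤ (n : ℝ) ^ (-s) := by positivity
    have h6 : 0 ≤ s / n := by positivity
    rw [h2]
    nlinarith

/-- Partial summation. -/
lemma abel_bound (g : ℕ → ℂ) (C s : ℝ) (hs : 0 ≤ s)
    (hS : ∀ n : ℕ, 1 ≤ n → ‖∑ k ∈ Icc 1 n, g k‖ ≤ C / n) (N : ℕ) (hN : 1 ≤ N) :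
    ‖∑ k ∈ Icc 1 N, tw g s k - (∑ k ∈ Icc 1 N, g k) * (((N : ℝ) ^ (-s) : ℝ) : ℂ)‖
      ≤ C * s * (2 - 2 / N) := by
  have hC : 0 ≤ C := by
    have := hS 1 le_rfl
    have h2 := norm_nonneg (∑ k ∈ Icc 1 1, g k)
    simp only [Nat.cast_one, div_one] at this
    linarith
  induction N, hN using Nat.le_induction with
  | base => simp [tw]
  | succ n hn ih =>
    have hn0 : (0 : ℝ) < n := by exact_mod_cast hn
    have hn1 : (1 : ℝ) ≤ n := by exact_mod_cast hn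
    rw [Finset.sum_Icc_succ_top (by omega), Finset.sum_Icc_succ_top (by omega)]
    have key : ∑ k ∈ Icc 1 n, tw g s k + tw g s (n + 1) -
        (∑ k ∈ Icc 1 n, g k + g (n + 1)) * ((((n + 1 : ℕ) : ℝ) ^ (-s) : ℝ) : ℂ) =
        (∑ k ∈ Icc 1 n, tw g s k - (∑ k ∈ Icc 1 n, g k) * (((n : ℝ) ^ (-s) : ℝ) : ℂ)) +
        (∑ k ∈ Icc 1 n, g k) * (((n : ℝ) ^ (-s) - ((n + 1 : ℕ) : ℝ) ^ (-s) : ℝ) : ℂ) := by
      simp only [tw]
      push_cast
      ring
    rw [key]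
    refine (norm_add_le _ _).trans ?_
    obtain ⟨h1, h2⟩ := rpow_diff_le s hs n hn
    have h3 : ‖(∑ k ∈ Icc 1 n, g k) *
        (((n : ℝ) ^ (-s) - ((n + 1 : ℕ) : ℝ) ^ (-s) : ℝ) : ℂ)‖ ≤ C / n * (s / n) := by
      rw [norm_mul, Complex.norm_real, Real.norm_eq_abs, abs_of_nonneg h1]
      exact mul_le_mul (hS n hn) h2 h1 (by positivity)
    have h4 : C / n * (s / n) ≤ C * s * (2 / n - 2 / ((n + 1 : ℕ) : ℝ)) := by
      have : C / n * (s / n) = C * s * (1 / (n : ℝ) ^ 2) := by field_simp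
      rw [this]
      refine mul_le_mul_of_nonneg_left ?_ (by positivity)
      push_cast
      rw [div_sub_div _ _ (by positivity) (by positivity), div_le_div_iff₀ (by positivity) (by positivity)]
      nlinarith
    linarith

lemma norm_le_of_sums (g : ℕ → ℂ) (n : ℕ) (hn : 1 ≤ n) :
    ‖g (n + 1)‖ ≤ ‖∑ k ∈ Icc 1 (n + 1), g k‖ + ‖∑ k ∈ Icc 1 n, g k‖ := by
  have : g (n + 1) = ∑ k ∈ Icc 1 (n + 1), g k - ∑ k ∈ Icc 1 n, g k := by
    rw [Finset.sum_Icc_succ_top (by omega)]; ring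
  rw [this]
  exact norm_sub_le _ _

lemma summable_tw (g : ℕ → ℂ) (D s : ℝ) (hs : 0 < s)
    (hg : ∀ n : ℕ, ‖g n‖ ≤ D / n) : Summable (fun n => ‖tw g s n‖) := by
  have h : Summable (fun n : ℕ => D * ((n : ℝ) ^ (-(1 + s)))) :=
    (Real.summable_nat_rpow.mpr (by linarith)).mul_left D
  refine Summable.of_nonneg_of_le (fun n => norm_nonneg _) (fun n => ?_) h
  rw [norm_tw]
  rcases Nat.eq_zero_or_pos n with rfl | hn
  · have := hg 0
    simp only [Nat.cast_zero, div_zero, norm_le_zero_iff] at this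
    simp [this, Real.zero_rpow (show -s + -1 ≠ 0 by linarith)]
  · have hn0 : (0 : ℝ) < n := by exact_mod_cast hn
    have : D * (n : ℝ) ^ (-(1 + s)) = D / n * (n : ℝ) ^ (-s) := by
      rw [show -(1 + s) = -1 + -s by ring, Real.rpow_add hn0, Real.rpow_neg_one]
      ring
    rw [this]
    exact mul_le_mul_of_nonneg_right (hg n) (by positivity)

/-- Upper bound for the Dirichlet series near `s = 0`. -/
lemma tsum_tw_le (g : ℕ → ℂ) (C D s : ℝ) (hs : 0 < s) (hg0 : g 0 = 0)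
    (hS : ∀ n : ℕ, 1 ≤ n → ‖∑ k ∈ Icc 1 n, g k‖ ≤ C / n)
    (hg : ∀ n : ℕ, ‖g n‖ ≤ D / n) : ‖∑' n, tw g s n‖ ≤ 2 * C * s := by
  have hC : 0 ≤ C := by
    have := hS 1 le_rfl
    have h2 := norm_nonneg (∑ k ∈ Icc 1 1, g k)
    simp only [Nat.cast_one, div_one] at this
    linarith
  have hsum := (summable_tw g D s hs hg).of_norm
  have h1 : Tendsto (fun N : ℕ => ∑ k ∈ Icc 1 N, tw g s k) atTop (𝓝 (∑' n, tw g s n)) := by
    have := (hsum.hasSum.tendsto_sum_nat).comp (tendsto_add_atTop_nat 1)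
    refine this.congr (fun N => ?_)
    simp only [Function.comp]
    rw [Finset.range_eq_Ico, Finset.sum_eq_sum_Ico_succ_bot (by omega)]
    have : tw g s 0 = 0 := by simp [tw, hg0]
    rw [this, zero_add]
    rfl
  have h2 : Tendsto (fun N : ℕ => 2 * C * s + C / N) atTop (𝓝 (2 * C * s + 0)) :=
    tendsto_const_nhds.add (tendsto_const_div_atTop_nhds_zero_nat C)
  rw [add_zero] at h2
  refine le_of_tendsto_of_tendsto h1.norm h2 ?_
  filter_upwards [eventually_ge_atTop 1] with N hN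
  have hn0 : (0 : ℝ) < N := by exact_mod_cast hN
  have hn1 : (1 : ℝ) ≤ N := by exact_mod_cast hN
  have h3 := abel_bound g C s hs.le hS N hN
  have h4 : ‖(∑ k ∈ Icc 1 N, g k) * (((N : ℝ) ^ (-s) : ℝ) : ℂ)‖ ≤ C / N := by
    rw [norm_mul, Complex.norm_real, Real.norm_eq_abs, abs_of_nonneg (by positivity)]
    have h3 : (N : ℝ) ^ (-s) ≤ 1 := Real.rpow_le_one_of_one_le_of_nonpos hn1 (by linarith)
    calc _ ≤ C / N * 1 := mul_le_mul (hS N hN) h3 (by positivity) (by positivity)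
      _ = C / N := mul_one _
  have h5 := norm_add_le (∑ k ∈ Icc 1 N, tw g s k -
    (∑ k ∈ Icc 1 N, g k) * (((N : ℝ) ^ (-s) : ℝ) : ℂ))
    ((∑ k ∈ Icc 1 N, g k) * (((N : ℝ) ^ (-s) : ℝ) : ℂ))
  rw [sub_add_cancel] at h5
  have h6 : C * s * (2 - 2 / N) ≤ 2 * C * s := by
    have : 0 ≤ C * s * (2 / N) := by positivity
    nlinarith
  linarith

/-- Lower bound for a local factor at a large prime. -/
lemma local_lower (g : ℕ → ℂ) (D s ε θ : ℝ) (hs : 0 < s) (hg1 : g 1 = 1)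
    (hg : ∀ n : ℕ, ‖g n‖ ≤ D / n) (hε : 0 ≤ ε) (hθ0 : 0 ≤ θ) (hθ1 : θ ≤ 1)
    (p : ℕ) (hp : p.Prime) (hpe : ∀ k : ℕ, 1 ≤ k → ‖g (p ^ k)‖ ≤ ε / (p : ℝ) ^ k)
    (hpθ : ε ≤ θ * (1 - 1 / p)) :
    (1 - (p : ℝ) ^ (-(1 + s))) ^ θ ≤ ‖∑' e, tw g s (p ^ e)‖ := by
  have hp2 : (2 : ℝ) ≤ p := by exact_mod_cast hp.two_le
  have hp0 : (0 : ℝ) < p := by linarith
  set y : ℝ := (p : ℝ) ^ (-(1 + s)) with hy
  have hy0 : 0 < y := by positivity
  have hy1 : y ≤ 1 / p := by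
    rw [hy, one_div, ← Real.rpow_neg_one]
    exact Real.rpow_le_rpow_of_exponent_le (by linarith) (by linarith)
  have hp1 : 1 / (p : ℝ) ≤ 1 / 2 := by
    rw [div_le_div_iff₀ hp0 (by norm_num)]; linarith
  have hsum : Summable (fun e : ℕ => ‖tw g s (p ^ e)‖) :=
    (summable_tw g D s hs hg).comp_injective (Nat.pow_right_injective hp.two_le)
  have h1 : (1 - y) ^ θ ≤ 1 - θ * y := by
    have := rpow_one_add_le_one_add_mul_self (s := -y) (by linarith) hθ0 hθ1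
    simpa [sub_eq_add_neg] using this
  have h2 : ∑' e, tw g s (p ^ e) = 1 + ∑' e, tw g s (p ^ (e + 1)) := by
    rw [hsum.of_norm.tsum_eq_zero_add]
    simp [tw, hg1]
  have h3 : ‖∑' e, tw g s (p ^ (e + 1))‖ ≤ ε * y * (1 - y)⁻¹ := by
    have hgeo : HasSum (fun e : ℕ => ε * y * y ^ e) (ε * y * (1 - y)⁻¹) :=
      (hasSum_geometric_of_lt_one hy0.le (by linarith)).mul_left _
    refine tsum_of_norm_bounded hgeo (fun e => ?_)
    rw [norm_tw]
    have : ε * y * y ^ e = ε / (p : ℝ) ^ (e + 1) * ((p ^ (e + 1) : ℕ) : ℝ) ^ (-s) := by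
      have hyy : y = (p : ℝ)⁻¹ * (p : ℝ) ^ (-s) := by
        rw [hy, show -(1 + s) = -1 + -s by ring, Real.rpow_add hp0, Real.rpow_neg_one]
      have hpp : ((p ^ (e + 1) : ℕ) : ℝ) ^ (-s) = ((p : ℝ) ^ (-s)) ^ (e + 1) := by
        push_cast
        rw [← Real.rpow_natCast, ← Real.rpow_natCast, ← Real.rpow_mul hp0.le,
          ← Real.rpow_mul hp0.le, mul_comm]
      rw [hpp, mul_assoc, ← pow_succ', hyy, mul_pow, inv_pow]
      ring
    rw [this]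
    exact mul_le_mul_of_nonneg_right (hpe _ (by omega)) (by positivity)
  have h4 : ε * y * (1 - y)⁻¹ ≤ θ * y := by
    rw [← div_eq_mul_inv, div_le_iff₀ (by linarith)]
    have : θ * (1 - 1 / p) ≤ θ * (1 - y) := mul_le_mul_of_nonneg_left (by linarith) hθ0
    nlinarith
  rw [h2]
  have h5 := norm_sub_norm_le (1 : ℂ) (-∑' e, tw g s (p ^ (e + 1)))
  rw [sub_neg_eq_add, norm_neg, norm_one] at h5
  linarith

/-- The completely multiplicative function `n ^ (-t)`. -/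
noncomputable def zhom (t : ℝ) (ht : 0 < t) : ℕ →*₀ ℝ where
  toFun n := (n : ℝ) ^ (-t)
  map_zero' := by simp [Real.zero_rpow (show -t ≠ 0 by linarith)]
  map_one' := by simp
  map_mul' m n := by
    push_cast
    rw [Real.mul_rpow (by positivity) (by positivity)]

lemma zeta_prod (s : ℝ) (hs : 0 < s) :
    Tendsto (fun n : ℕ => ∏ p ∈ n.primesBelow, (1 - (p : ℝ) ^ (-(1 + s)))) atTop
      (𝓝 (∑' n : ℕ, 1 / (n : ℝ) ^ (1 + s))⁻¹) := by
  have hsum : Summable (fun n : ℕ => ‖zhom (1 + s) (by linarith) n‖) := by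
    have h : Summable (fun n : ℕ => ((n : ℝ) ^ (-(1 + s)))) :=
      Real.summable_nat_rpow.mpr (by linarith)
    refine h.congr (fun n => ?_)
    change _ = ‖(n : ℝ) ^ (-(1 + s))‖
    rw [Real.norm_eq_abs, abs_of_nonneg (by positivity)]
  have h1 := EulerProduct.eulerProduct_completely_multiplicative hsum
  have h2 : ∑' n : ℕ, zhom (1 + s) (by linarith) n = ∑' n : ℕ, 1 / (n : ℝ) ^ (1 + s) := by
    refine tsum_congr (fun n => ?_)
    change (n : ℝ) ^ (-(1 + s)) = _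
    rw [Real.rpow_neg (by positivity), one_div]
  rw [h2] at h1
  have h3 : (∑' n : ℕ, 1 / (n : ℝ) ^ (1 + s)) ≠ 0 := by
    have hs' : Summable (fun n : ℕ => 1 / (n : ℝ) ^ (1 + s)) :=
      Real.summable_one_div_nat_rpow.mpr (by linarith)
    refine (hs'.tsum_pos (fun n => by positivity) 1 (by simp)).ne'
  refine (h1.inv₀ h3).congr (fun n => ?_)
  rw [Finset.prod_inv_distrib, inv_inv]
  rfl

/-- Lower bound for the Dirichlet series. -/
lemma tsum_tw_ge (g : ℕ → ℂ) (D s ε θ : ℝ) (hs : 0 < s) (hg0 : g 0 = 0) (hg1 : g 1 = 1)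
    (hmul : ∀ {m n : ℕ}, Nat.Coprime m n → g (m * n) = g m * g n)
    (hg : ∀ n : ℕ, ‖g n‖ ≤ D / n) (hε : 0 ≤ ε) (hθ0 : 0 ≤ θ) (hθ1 : θ ≤ 1) (P : ℕ)
    (hpe : ∀ n : ℕ, P ≤ n → ‖g n‖ ≤ ε / n)
    (hpθ : ∀ p : ℕ, P ≤ p → ε ≤ θ * (1 - 1 / p)) :
    (∏ p ∈ P.primesBelow, ‖∑' e, tw g s (p ^ e)‖) * ((∑' n : ℕ, 1 / (n : ℝ) ^ (1 + s))⁻¹) ^ θ
      ≤ ‖∑' n, tw g s n‖ := by
  have hsum := summable_tw g D s hs hg
  have h1 := (EulerProduct.eulerProduct (f := tw g s) (by simp [tw, hg1])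
    (fun {m n} h => by
      simp only [tw, hmul h]
      push_cast
      rw [Real.mul_rpow (by positivity) (by positivity)]
      push_cast
      ring) hsum (by simp [tw, hg0])).norm
  have h2 := ((zeta_prod s hs).rpow_const (p := θ) (Or.inr hθ0)).const_mul
    (∏ p ∈ P.primesBelow, ‖∑' e, tw g s (p ^ e)‖)
  refine le_of_tendsto_of_tendsto h2 h1 ?_
  filter_upwards [eventually_ge_atTop P] with n hn
  have hsub : P.primesBelow ⊆ n.primesBelow := by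
    intro p hp
    rw [Nat.mem_primesBelow] at hp ⊢
    exact ⟨hp.1.trans_le hn, hp.2⟩
  have hy : ∀ p : ℕ, p.Prime → 0 ≤ 1 - (p : ℝ) ^ (-(1 + s)) ∧ 1 - (p : ℝ) ^ (-(1 + s)) ≤ 1 := by
    intro p hp
    have hp1 : (1 : ℝ) ≤ p := by exact_mod_cast hp.one_le
    have := Real.rpow_le_one_of_one_le_of_nonpos hp1 (show -(1 + s) ≤ 0 by linarith)
    have h0 : (0 : ℝ) ≤ (p : ℝ) ^ (-(1 + s)) := by positivity
    constructor <;> linarith
  rw [norm_prod, ← Finset.prod_sdiff hsub, ← Finset.prod_sdiff hsub, mul_comm]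
  refine mul_le_mul_of_nonneg_right ?_ (Finset.prod_nonneg (fun _ _ => norm_nonneg _))
  have hA : 0 ≤ ∏ p ∈ n.primesBelow \ P.primesBelow, (1 - (p : ℝ) ^ (-(1 + s))) :=
    Finset.prod_nonneg (fun p hp => (hy p (Nat.prime_of_mem_primesBelow (mem_sdiff.mp hp).1)).1)
  have hB0 : 0 ≤ ∏ p ∈ P.primesBelow, (1 - (p : ℝ) ^ (-(1 + s))) :=
    Finset.prod_nonneg (fun p hp => (hy p (Nat.prime_of_mem_primesBelow hp)).1)
  have hB1 : ∏ p ∈ P.primesBelow, (1 - (p : ℝ) ^ (-(1 + s))) ≤ 1 :=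
    Finset.prod_le_one (fun p hp => (hy p (Nat.prime_of_mem_primesBelow hp)).1)
      (fun p hp => (hy p (Nat.prime_of_mem_primesBelow hp)).2)
  calc _ ≤ (∏ p ∈ n.primesBelow \ P.primesBelow, (1 - (p : ℝ) ^ (-(1 + s)))) ^ θ := by
        refine Real.rpow_le_rpow (mul_nonneg hA hB0) ?_ hθ0
        nlinarith
    _ = ∏ p ∈ n.primesBelow \ P.primesBelow, (1 - (p : ℝ) ^ (-(1 + s))) ^ θ := by
        rw [Real.finsetProd_rpow _ _
          (fun p hp => (hy p (Nat.prime_of_mem_primesBelow (mem_sdiff.mp hp).1)).1)]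
    _ ≤ _ := by
        refine Finset.prod_le_prod (fun p hp => Real.rpow_nonneg
          (hy p (Nat.prime_of_mem_primesBelow (mem_sdiff.mp hp).1)).1 _) (fun p hp => ?_)
        have hpp := Nat.prime_of_mem_primesBelow (mem_sdiff.mp hp).1
        have hpP : P ≤ p := by
          by_contra h
          exact (mem_sdiff.mp hp).2 (Nat.mem_primesBelow.mpr ⟨by omega, hpp⟩)
        refine local_lower g D s ε θ hs hg1 hg hε hθ0 hθ1 p hpp (fun k hk => ?_) (hpθ p hpP)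
        have := hpe (p ^ k) (hpP.trans (Nat.le_self_pow (by omega) p))
        simpa using this

/-- Continuity of a local factor at `s = 0`. -/
lemma local_tendsto (g : ℕ → ℂ) (D : ℝ) (hg : ∀ n : ℕ, ‖g n‖ ≤ D / n) (p : ℕ) (hp : p.Prime)
    (L : ℂ) (hL : Tendsto (fun K : ℕ => ∑ k ∈ range K, g (p ^ k)) atTop (𝓝 L)) :
    Tendsto (fun s : ℝ => ∑' e, tw g s (p ^ e)) (𝓝[>] 0) (𝓝 L) := by
  have hp2 : (2 : ℝ) ≤ p := by exact_mod_cast hp.two_le
  have hp0 : (0 : ℝ) < p := by linarith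
  have hb : Summable (fun e : ℕ => D * ((p : ℝ)⁻¹) ^ e) :=
    (summable_geometric_of_lt_one (by positivity) (inv_lt_one_of_one_lt₀ (by linarith))).mul_left D
  have hb' : ∀ e : ℕ, ‖g (p ^ e)‖ ≤ D * ((p : ℝ)⁻¹) ^ e := by
    intro e
    have := hg (p ^ e)
    push_cast at this
    rwa [inv_pow, ← div_eq_mul_inv]
  have hsum : Summable (fun e : ℕ => g (p ^ e)) := Summable.of_norm_bounded hb hb'
  have hL' : ∑' e, g (p ^ e) = L := tendsto_nhds_unique hsum.hasSum.tendsto_sum_nat hL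
  rw [← hL']
  refine tendsto_tsum_of_dominated_convergence hb (fun k => ?_) ?_
  · have hc : Continuous (fun s : ℝ => tw g s (p ^ k)) := by
      unfold tw
      refine continuous_const.mul (Complex.continuous_ofReal.comp ?_)
      have : (0 : ℝ) < ((p ^ k : ℕ) : ℝ) := by push_cast; positivity
      exact continuous_const.rpow continuous_neg (fun _ => Or.inl this.ne')
    have := (hc.tendsto 0).mono_left (nhdsWithin_le_nhds (s := Set.Ioi (0 : ℝ)))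
    simpa [tw] using this
  · filter_upwards [self_mem_nhdsWithin] with s hs k
    have hs' : 0 < s := hs
    rw [norm_tw]
    have h1 : (1 : ℝ) ≤ ((p ^ k : ℕ) : ℝ) := by
      push_cast
      exact one_le_pow₀ (by linarith)
    have h3 : ((p ^ k : ℕ) : ℝ) ^ (-s) ≤ 1 :=
      Real.rpow_le_one_of_one_le_of_nonpos h1 (by linarith)
    calc _ ≤ ‖g (p ^ k)‖ * 1 := mul_le_mul_of_nonneg_left h3 (norm_nonneg _)
      _ ≤ _ := by rw [mul_one]; exact hb' k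

/-- The core contradiction. -/
lemma core (g : ℕ → ℂ) (C D ε θ : ℝ) (hg0 : g 0 = 0) (hg1 : g 1 = 1)
    (hmul : ∀ {m n : ℕ}, Nat.Coprime m n → g (m * n) = g m * g n)
    (hS : ∀ n : ℕ, 1 ≤ n → ‖∑ k ∈ Icc 1 n, g k‖ ≤ C / n)
    (hg : ∀ n : ℕ, ‖g n‖ ≤ D / n) (hε : 0 ≤ ε) (hθ0 : 0 ≤ θ) (hθ1 : θ < 1) (P : ℕ)
    (hpe : ∀ n : ℕ, P ≤ n → ‖g n‖ ≤ ε / n)
    (hpθ : ∀ p : ℕ, P ≤ p → ε ≤ θ * (1 - 1 / p))
    (hloc : ∀ p : ℕ, p.Prime → ∃ L : ℂ, L ≠ 0 ∧
      Tendsto (fun K : ℕ => ∑ k ∈ range K, g (p ^ k)) atTop (𝓝 L)) : False := by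
  choose! L hL0 hL using hloc
  have h1 : Tendsto (fun s : ℝ => ∏ p ∈ P.primesBelow, ‖∑' e, tw g s (p ^ e)‖) (𝓝[>] 0)
      (𝓝 (∏ p ∈ P.primesBelow, ‖L p‖)) :=
    tendsto_finsetProd _ (fun p hp =>
      (local_tendsto g D hg p (Nat.prime_of_mem_primesBelow hp) (L p)
        (hL p (Nat.prime_of_mem_primesBelow hp))).norm)
  have h2 : 0 < ∏ p ∈ P.primesBelow, ‖L p‖ :=
    Finset.prod_pos (fun p hp => norm_pos_iff.mpr (hL0 p (Nat.prime_of_mem_primesBelow hp)))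
  have h3 : Tendsto (fun s : ℝ => s * ∑' n : ℕ, 1 / (n : ℝ) ^ (1 + s)) (𝓝[>] 0) (𝓝 1) := by
    have ht : Tendsto (fun s : ℝ => 1 + s) (𝓝[>] 0) (𝓝[>] 1) := by
      refine tendsto_nhdsWithin_iff.mpr ⟨?_, ?_⟩
      · have : Tendsto (fun s : ℝ => 1 + s) (𝓝 0) (𝓝 (1 + 0)) :=
          tendsto_const_nhds.add tendsto_id
        rw [add_zero] at this
        exact this.mono_left nhdsWithin_le_nhds
      · filter_upwards [self_mem_nhdsWithin] with s hs
        have : 0 < s := hs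
        change 1 < 1 + s
        linarith
    refine (tendsto_sub_mul_tsum_nat_rpow.comp ht).congr (fun s => ?_)
    simp
  have h4 : Tendsto (fun s : ℝ => 2 * C * s ^ (1 - θ) *
      (s * ∑' n : ℕ, 1 / (n : ℝ) ^ (1 + s)) ^ θ) (𝓝[>] 0) (𝓝 (2 * C * 0 * 1 ^ θ)) := by
    refine Tendsto.mul (Tendsto.const_mul _ ?_) (h3.rpow_const (Or.inl one_ne_zero))
    have hc : ContinuousAt (fun s : ℝ => s ^ (1 - θ)) 0 :=
      Real.continuousAt_rpow_const 0 _ (Or.inr (by linarith))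
    have := hc.tendsto.mono_left (nhdsWithin_le_nhds (s := Set.Ioi (0 : ℝ)))
    rwa [Real.zero_rpow (by linarith)] at this
  have h5 : ∏ p ∈ P.primesBelow, ‖L p‖ ≤ 2 * C * 0 * 1 ^ θ := by
    refine le_of_tendsto_of_tendsto h1 h4 ?_
    filter_upwards [self_mem_nhdsWithin] with s hs
    have hs' : 0 < s := hs
    have hZ : 0 < ∑' n : ℕ, 1 / (n : ℝ) ^ (1 + s) := by
      have hs'' : Summable (fun n : ℕ => 1 / (n : ℝ) ^ (1 + s)) :=
        Real.summable_one_div_nat_rpow.mpr (by linarith)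
      exact hs''.tsum_pos (fun n => by positivity) 1 (by simp)
    have ha := tsum_tw_ge g D s ε θ hs' hg0 hg1 hmul hg hε hθ0 hθ1.le P hpe hpθ
    have hb := tsum_tw_le g C D s hs' hg0 hS hg
    set Z := ∑' n : ℕ, 1 / (n : ℝ) ^ (1 + s)
    have hZθ : 0 < Z ^ θ := by positivity
    rw [Real.inv_rpow hZ.le, ← div_eq_mul_inv, div_le_iff₀ hZθ] at ha
    have : 2 * C * s ^ (1 - θ) * (s * Z) ^ θ = 2 * C * s * Z ^ θ := by
      rw [Real.mul_rpow hs'.le hZ.le, Real.rpow_sub hs', Real.rpow_one]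
      have : 0 < s ^ θ := by positivity
      field_simp
    rw [this]
    exact ha.trans (mul_le_mul_of_nonneg_right hb hZθ.le)
  simp at h5
  linarith

end Pool.Agent.Lib.MP_2ae949_nt
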